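import Pool.Agent.V11292.TriFinal

/-!
# MP_3093d2: the assertion fails for `n = 1471`

`p_1471 = 12301`, and none of the numbers `π(1471 k)`, `1 ≤ k ≤ 6150`, is triangular.
-/

set_option autoImplicit false

namespace Pool.Agent.Results.MP_3093d2_nt.CounterexampleAt1471

/-- `Nat.nth Nat.Prime (n - 1)` is the `n`-th prime `p_n` (`p_1 = 2`), and `Nat.primeCounting x` is the
number of the primes `p ≤ x`. -/
theorem result : ∃ n : ℕ, 9 < n ∧ ∀ k : ℕ, 1 ≤ k →
    (k : ℝ) < (Nat.nth Nat.Prime (n - 1) : ℝ) / 2 →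
      ¬ ∃ m : ℕ, Nat.primeCounting (k * n) = m * (m + 1) / 2 := by
  refine ⟨1471, by norm_num, fun k hk1 hk2 => ?_⟩
  have h1 : Nat.nth Nat.Prime (1471 - 1) = 12301 := Pool.Agent.V11292.Tri.nth_prime
  rw [h1] at hk2
  have h2 : k ≤ 6150 := by
    have h3 : (k : ℝ) * 2 < 12301 := by
      push_cast at hk2
      linarith
    have h4 : k * 2 < 12301 := by exact_mod_cast h3
    omega
  rw [mul_comm k 1471]
  exact Pool.Agent.V11292.Tri.not_tri k hk1 h2

end Pool.Agent.Results.MP_3093d2_nt.CounterexampleAt1471
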